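import Mathlib
import Pool.Agent.H30.Bkr

namespace Pool.Agent.Results.MP_2d934b_pr.Distinct

open Set Pool.Agent.H30.Bkr

/-- The value of a bracketing of `A^r`. -/
def val {ι S : Type} (A : Set (ι → S)) : Br → Set (ι → S)
  | .leaf => A
  | .node a b => box (val A a) (val A b)

/-- Equivalence of bracketings: swapping the two subtrees at some internal nodes. -/
inductive Eqv : Br → Br → Prop
  | leaf : Eqv .leaf .leaf
  | same {a b a' b' : Br} : Eqv a a' → Eqv b b' → Eqv (.node a b) (.node a' b')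
  | swap {a b a' b' : Br} : Eqv a b' → Eqv b a' → Eqv (.node a b) (.node a' b')

lemma val_pull {ι κ S : Type} (e : κ → ι) (he : Function.Injective e) (A : Set (κ → S)) :
    ∀ t : Br, val (pull e A) t = pull e (val A t)
  | .leaf => rfl
  | .node a b => by rw [val, val_pull e he A a, val_pull e he A b, box_pull e he]; rfl

variable (r : ℕ)

def Ah : Set (I r ⊕ Fin r → Bool) :=
  {x | ∃ i : Fin r, x (.inr i) = true ∧ (fun c => x (.inl c)) ∈ GA r i}

def pt (y : I r → Bool) (κ : Finset ℕ) : I r ⊕ Fin r → Bool :=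
  Sum.elim y fun i => decide ((i : ℕ) ∈ κ)

def V (t : Br) (κ : Finset ℕ) : Set (I r → Bool) := {y | pt r y κ ∈ val (Ah r) t}

lemma split {a b : Br} {κ : Finset ℕ} {y : I r → Bool} (h : y ∈ V r (.node a b) κ) :
    ∃ κ1 κ2 : Finset ℕ, κ1 ⊆ κ ∧ κ2 ⊆ κ ∧ Disjoint κ1 κ2 ∧ y ∈ box (V r a κ1) (V r b κ2) := by
  classical
  obtain ⟨K, L, hd, h1, h2⟩ := h
  let g : Set (I r ⊕ Fin r) → Finset ℕ := fun M =>
    κ.filter fun n => ∃ h : n < r, Sum.inr ⟨n, h⟩ ∈ M
  have key : ∀ (M : Set (I r ⊕ Fin r)) (z : I r → Bool), z ∈ cyl y (Sum.inl ⁻¹' M) →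
      pt r z (g M) ∈ cyl (pt r y κ) M := by
    rintro M z hz (c | i) hc
    · exact hz c hc
    · simp only [pt, Sum.elim_inr, g, Finset.mem_filter]
      congr 1
      exact propext ⟨fun h => h.1, fun h => ⟨h, i.2, hc⟩⟩
  refine ⟨g K, g L, Finset.filter_subset _ _, Finset.filter_subset _ _, ?_, Sum.inl ⁻¹' K,
    Sum.inl ⁻¹' L, hd.preimage _, fun z hz => h1 (key K z hz), fun z hz => h2 (key L z hz)⟩
  refine Finset.disjoint_left.mpr fun n h1 h2 => ?_
  obtain ⟨-, _, h1⟩ := Finset.mem_filter.mp h1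
  obtain ⟨-, _, h2⟩ := Finset.mem_filter.mp h2
  exact Set.disjoint_left.mp hd h1 h2

lemma leaf_mem {κ : Finset ℕ} {y : I r → Bool} (h : y ∈ V r .leaf κ) :
    ∃ i ∈ κ, y ∈ GA r i := by
  obtain ⟨i, h1, h2⟩ := h
  exact ⟨i, by simpa [pt] using h1, h2⟩

lemma size_le : ∀ (t : Br) (κ : Finset ℕ) (y : I r → Bool), y ∈ V r t κ → t.size ≤ κ.card
  | .leaf, κ, y, h => by
    obtain ⟨i, hi, -⟩ := leaf_mem r h
    exact Finset.card_pos.mpr ⟨i, hi⟩
  | .node a b, κ, y, h => by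
    obtain ⟨κ1, κ2, s1, s2, hd, hb⟩ := split r h
    have e1 := size_le a κ1 y (box_left _ _ hb)
    have e2 := size_le b κ2 y (box_right _ _ hb)
    have := Finset.card_le_card (Finset.union_subset s1 s2)
    rw [Finset.card_union_of_disjoint hd] at this
    simp only [Br.size]; omega

lemma split' {a b : Br} {κ : Finset ℕ} {y : I r → Bool} (h : y ∈ V r (.node a b) κ)
    (hc : κ.card = a.size + b.size) : ∃ κ1 κ2 : Finset ℕ, κ1 ∪ κ2 = κ ∧ Disjoint κ1 κ2 ∧
      κ1.card = a.size ∧ κ2.card = b.size ∧ y ∈ box (V r a κ1) (V r b κ2) := by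
  obtain ⟨κ1, κ2, s1, s2, hd, hb⟩ := split r h
  have e1 := size_le r a κ1 y (box_left _ _ hb)
  have e2 := size_le r b κ2 y (box_right _ _ hb)
  have h1 := Finset.card_le_card (Finset.union_subset s1 s2)
  have h2 := Finset.card_union_of_disjoint hd
  exact ⟨κ1, κ2, Finset.eq_of_subset_of_card_le (Finset.union_subset s1 s2) (by omega), hd,
    by omega, by omega, hb⟩

lemma W1 (p : ℕ) : ∀ (t : Br) (κ : Finset ℕ), κ.card = t.size → p ∈ κ → V r t κ ⊆ GA r p
  | .leaf, κ, hc, hp => fun y h => by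
    obtain ⟨i, hi, hy⟩ := leaf_mem r h
    rwa [Finset.card_le_one.mp hc.le p hp i hi]
  | .node a b, κ, hc, hp => fun y h => by
    obtain ⟨κ1, κ2, rfl, -, c1, c2, hb⟩ := split' r h hc
    rcases Finset.mem_union.mp hp with hp | hp
    · exact W1 p a κ1 c1 hp (box_left _ _ hb)
    · exact W1 p b κ2 c2 hp (box_right _ _ hb)

lemma W2 (p q : ℕ) (hpq : p ≠ q) : ∀ (t : Br) (κ : Finset ℕ), κ.card = t.size → p ∈ κ → q ∈ κ →
    V r t κ ⊆ box (GA r p) (GA r q)
  | .leaf, _, hc, hp, hq => absurd (Finset.card_le_one.mp hc.le p hp q hq) hpq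
  | .node a b, κ, hc, hp, hq => fun y h => by
    obtain ⟨κ1, κ2, rfl, -, c1, c2, hb⟩ := split' r h hc
    rcases Finset.mem_union.mp hp with hp | hp <;> rcases Finset.mem_union.mp hq with hq | hq
    · exact W2 p q hpq a κ1 c1 hp hq (box_left _ _ hb)
    · exact box_mono (W1 r p a κ1 c1 hp) (W1 r q b κ2 c2 hq) hb
    · rw [box_comm]; exact box_mono (W1 r q a κ1 c1 hq) (W1 r p b κ2 c2 hp) hb
    · exact W2 p q hpq b κ2 c2 hp hq (box_right _ _ hb)

lemma lift : ∀ (s : LT) (κ : Finset ℕ) (y : I r → Bool), s.Good → (∀ n ∈ s.L, n < r) →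
    s.L ⊆ κ → y ∈ s.E (GA r) → y ∈ V r s.shape κ
  | .leaf n, κ, y, _, h1, h2, h => ⟨⟨n, h1 n (by simp [LT.L])⟩, by
      simpa [pt] using h2 (by simp [LT.L]), h⟩
  | .node a b, κ, y, g, h1, h2, ⟨K, L, hd, g1, g2⟩ => by
    classical
    have key : ∀ (c : LT) (M : Set (I r)), c.Good → c.L ⊆ (LT.node a b).L →
        cyl y M ⊆ c.E (GA r) → (∀ (κ : Finset ℕ) (y : I r → Bool), c.Good → (∀ n ∈ c.L, n < r) →
          c.L ⊆ κ → y ∈ c.E (GA r) → y ∈ V r c.shape κ) →
        cyl (pt r y κ) {z | Sum.elim (· ∈ M) (fun i : Fin r => (i : ℕ) ∈ c.L) z} ⊆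
          val (Ah r) c.shape := by
      intro c M gc hc hM ih z hz
      have e : z = pt r (fun c => z (.inl c))
          ((Finset.range r).filter fun n => ∃ h : n < r, z (.inr ⟨n, h⟩) = true) := by
        funext c
        rcases c with c | i
        · rfl
        · simp [pt]
      rw [e]
      refine ih _ _ gc (fun n hn => h1 n (hc hn)) (fun n hn => ?_) (hM fun c hc => hz (.inl c) hc)
      have hn' := h1 n (hc hn)
      refine Finset.mem_filter.mpr ⟨Finset.mem_range.mpr hn', hn', ?_⟩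
      rw [hz (.inr ⟨n, hn'⟩) hn]
      simpa [pt] using h2 (hc hn)
    refine ⟨_, _, ?_, key a K g.1 Finset.subset_union_left g1 (lift a),
      key b L g.2.1 Finset.subset_union_right g2 (lift b)⟩
    refine Set.disjoint_left.mpr ?_
    rintro (c | i) h1 h2
    · exact Set.disjoint_left.mp hd h1 h2
    · exact Finset.disjoint_left.mp g.2.2 h1 h2

lemma side (D : ℕ × ℕ × ℕ → Prop) (a0 b0 : LT) (g : (LT.node a0 b0).Good)
    (hr : ∀ n ∈ (LT.node a0 b0).L, n < r) (hD : ∀ β, (LT.node a0 b0).D β → D β)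
    (a b : Br) (κ1 κ2 : Finset ℕ) (hu : κ1 ∪ κ2 = (LT.node a0 b0).L) (hd : Disjoint κ1 κ2)
    (c1 : κ1.card = a.size) (c2 : κ2.card = b.size)
    (hx : xD r D ∈ box (V r a κ1) (V r b κ2)) : κ1 ⊆ a0.L ∨ κ1 ⊆ b0.L := by
  by_contra hn
  rw [not_or, Finset.not_subset, Finset.not_subset] at hn
  obtain ⟨⟨k, hk, hk'⟩, ⟨i, hi, hi'⟩⟩ := hn
  have m1 : ∀ n ∈ κ1, n ∈ a0.L ∪ b0.L := fun n hn => by
    have := Finset.mem_union_left κ2 hn
    rwa [hu] at this
  have hkb : k ∈ b0.L := (Finset.mem_union.mp (m1 k hk)).resolve_left hk'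
  have hia : i ∈ a0.L := (Finset.mem_union.mp (m1 i hi)).resolve_right hi'
  obtain ⟨j, hj⟩ : κ2.Nonempty := Finset.card_pos.mp (by rw [c2]; exact b.size_pos)
  have hjm : j ∈ a0.L ∪ b0.L := by
    have := Finset.mem_union_right κ1 hj
    rwa [hu] at this
  have hik : i ≠ k := fun e => hi' (e ▸ hkb)
  have hij : i ≠ j := fun e => Finset.disjoint_left.mp hd hi (e ▸ hj)
  have hkj : k ≠ j := fun e => Finset.disjoint_left.mp hd hk (e ▸ hj)
  rcases Finset.mem_union.mp hjm with h | h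
  · exact P1 r D i j k (hr i (m1 i hi)) (hr j hjm) (hr k (m1 k hk)) hij hik hkj.symm
      (hD _ (Or.inr (Or.inr (Or.inl ⟨hij, hia, h, hkb⟩))))
      (box_mono (W2 r i k hik a κ1 c1 hi hk) (W1 r j b κ2 c2 hj) hx)
  · exact P1 r D k j i (hr k (m1 k hk)) (hr j hjm) (hr i (m1 i hi)) hkj hik.symm hij.symm
      (hD _ (Or.inr (Or.inr (Or.inr ⟨hkj, hkb, h, hia⟩))))
      (box_mono (W2 r k i hik.symm a κ1 c1 hk hi) (W1 r j b κ2 c2 hj) hx)

lemma fin_split {A B κ1 κ2 : Finset ℕ} (hu : κ1 ∪ κ2 = A ∪ B) (hAB : Disjoint A B)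
    (h1 : κ1 ⊆ A) (h2 : κ2 ⊆ B) : κ1 = A ∧ κ2 = B := by
  constructor
  · refine h1.antisymm fun n hn => ?_
    have : n ∈ κ1 ∪ κ2 := hu ▸ Finset.mem_union_left _ hn
    exact (Finset.mem_union.mp this).resolve_right fun h => Finset.disjoint_left.mp hAB hn (h2 h)
  · refine h2.antisymm fun n hn => ?_
    have : n ∈ κ1 ∪ κ2 := hu ▸ Finset.mem_union_right _ hn
    exact (Finset.mem_union.mp this).resolve_left fun h => Finset.disjoint_left.mp hAB (h1 h) hn

lemma rigid (D : ℕ × ℕ × ℕ → Prop) : ∀ (t : Br) (s : LT), s.Good → (∀ n ∈ s.L, n < r) →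
    (∀ β, s.D β → D β) → t.size = s.shape.size → xD r D ∈ V r t s.L → Eqv t s.shape
  | .leaf, .leaf _, _, _, _, _, _ => Eqv.leaf
  | .leaf, .node a b, _, _, _, h, _ => by
    have := a.shape.size_pos; have := b.shape.size_pos
    simp only [Br.size, LT.shape] at h; omega
  | .node a b, .leaf _, _, _, _, h, _ => by
    have := a.size_pos; have := b.size_pos
    simp only [Br.size, LT.shape] at h; omega
  | .node a b, .node a0 b0, g, hr, hD, h, hx => by
    obtain ⟨κ1, κ2, hu, hd, c1, c2, hb⟩ := split' r hx (by rw [LT.card _ g, ← h]; rfl)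
    have s1 := side r D a0 b0 g hr hD a b κ1 κ2 hu hd c1 c2 hb
    have s2 := side r D a0 b0 g hr hD b a κ2 κ1 (by rw [Finset.union_comm, hu]) hd.symm c2 c1
      (by rw [box_comm]; exact hb)
    have hra : ∀ n ∈ a0.L, n < r := fun n hn => hr n (Finset.mem_union_left _ hn)
    have hrb : ∀ n ∈ b0.L, n < r := fun n hn => hr n (Finset.mem_union_right _ hn)
    have hDa : ∀ β, a0.D β → D β := fun β h => hD β (Or.inl h)
    have hDb : ∀ β, b0.D β → D β := fun β h => hD β (Or.inr (Or.inl h))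
    have hu' : κ1 ∪ κ2 = a0.L ∪ b0.L := hu
    rcases s1 with s1 | s1 <;> rcases s2 with s2 | s2
    · obtain ⟨n, hn⟩ := b0.L_ne
      have : n ∈ κ1 ∪ κ2 := hu' ▸ Finset.mem_union_right _ hn
      exact absurd hn (Finset.disjoint_left.mp g.2.2 (Finset.union_subset s1 s2 this))
    · obtain ⟨rfl, rfl⟩ := fin_split hu' g.2.2 s1 s2
      exact Eqv.same (rigid D a a0 g.1 hra hDa (by rw [← c1, LT.card _ g.1]) (box_left _ _ hb))
        (rigid D b b0 g.2.1 hrb hDb (by rw [← c2, LT.card _ g.2.1]) (box_right _ _ hb))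
    · obtain ⟨rfl, rfl⟩ := fin_split (hu'.trans (Finset.union_comm _ _)) g.2.2.symm s1 s2
      exact Eqv.swap (rigid D a b0 g.2.1 hrb hDb (by rw [← c1, LT.card _ g.2.1])
        (box_left _ _ hb)) (rigid D b a0 g.1 hra hDa (by rw [← c2, LT.card _ g.1])
        (box_right _ _ hb))
    · obtain ⟨n, hn⟩ := a0.L_ne
      have : n ∈ κ1 ∪ κ2 := hu' ▸ Finset.mem_union_left _ hn
      exact absurd (Finset.union_subset s1 s2 this) (Finset.disjoint_left.mp g.2.2 hn)

theorem result (r : ℕ) (hr : 1 ≤ r) : ∃ (S : Type) (_ : Nonempty S) (d : ℕ) (_ : 1 ≤ d)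
    (A : Set (Fin d → S)), ∀ t t' : Br, t.size = r → t'.size = r →
      val A t = val A t' → Eqv t t' := by
  have : NeZero r := ⟨by omega⟩
  let e := Fintype.equivFin (I r ⊕ Fin r)
  refine ⟨Bool, inferInstance, Fintype.card (I r ⊕ Fin r), Fintype.card_pos,
    pull e (Ah r), fun t t' ht ht' h => ?_⟩
  rw [val_pull e e.injective, val_pull e e.injective] at h
  have h2 := pull_inj e e.injective h
  have hl : ∀ n ∈ (lab t' 0).L, n < r := fun n hn => by rw [lab_L] at hn; omega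
  have hx := lift r (lab t' 0) _ _ (lab_good t' 0) hl (Finset.Subset.refl _)
    (P2 r (lab t' 0) (lab_good t' 0))
  rw [lab_shape, V, ← h2] at hx
  have := rigid r _ t (lab t' 0) (lab_good t' 0) hl (fun _ h => h)
    (by rw [lab_shape, ht, ht']) hx
  rwa [lab_shape] at this

end Pool.Agent.Results.MP_2d934b_pr.Distinct
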